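import Pool.Agent.H25.MZ.Targets

/-!
# Module DV0: primes where two combinations of primitive characters differ (helper80)
-/

set_option autoImplicit false

open Complex Filter Topology
open scoped ArithmeticFunction.vonMangoldt

namespace Pool.Agent.H80.MZ

open Pool.Agent.H23.GLH Pool.Agent.H25.MZ DirichletCharacter

theorem tend_path (θ : ℝ) : Tendsto (fun s : ℝ => (s : ℂ) + θ * I) (𝓝[>] 1) (𝓝 (1 + θ * I)) := by
  have h : Continuous fun s : ℝ => (s : ℂ) + θ * I := by fun_prop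
  have h1 := (h.tendsto 1).mono_left (nhdsWithin_le_nhds (s := Set.Ioi (1 : ℝ)))
  simpa using h1

theorem tend_sub : Tendsto (fun s : ℝ => (s : ℂ) - 1) (𝓝[>] 1) (𝓝 0) := by
  have h : Continuous fun s : ℝ => (s : ℂ) - 1 := by fun_prop
  have h1 := (h.tendsto 1).mono_left (nhdsWithin_le_nhds (s := Set.Ioi (1 : ℝ)))
  simpa using h1

theorem re_path {s θ : ℝ} : ((s : ℂ) + θ * I).re = s := by simp

open scoped Classical in
/-- limit of the logarithmic derivative of an `L`-function -/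
theorem lim_log {N : ℕ} [NeZero N] (χ : DirichletCharacter ℂ N) (θ : ℝ) :
    Tendsto (fun s : ℝ => ((s : ℂ) - 1) * LSeries ((fun n : ℕ => (χ n : ℂ)) * (fun n : ℕ => ((Λ n : ℝ) : ℂ))) ((s : ℂ) + θ * I)) (𝓝[>] 1)
      (𝓝 (if χ = 1 ∧ θ = 0 then 1 else 0)) := by
  by_cases hχ : χ = 1
  · subst hχ
    set z₀ : ℂ := 1 + θ * I with hz₀
    have hL0 : LFunctionTrivChar₁ N z₀ ≠ 0 := by
      by_cases h1 : z₀ = 1
      · rw [h1]
        exact LFunctionTrivChar₁_apply_one_ne_zero _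
      · rw [LFunctionTrivChar₁, Function.update_of_ne h1, mul_ne_zero_iff]
        refine ⟨sub_ne_zero_of_ne h1, ?_⟩
        exact LFunction_ne_zero_of_one_le_re _ (.inr h1) (by simp [hz₀])
    have hd := differentiable_LFunctionTrivChar₁ N
    have hG : ContinuousAt (fun z => -deriv (LFunctionTrivChar₁ N) z / LFunctionTrivChar₁ N z)
        z₀ :=
      ((hd.contDiff.continuous_deriv le_rfl).neg.continuousAt).div hd.continuous.continuousAt hL0
    have h1 : Tendsto (fun s : ℝ => (fun z => -deriv (LFunctionTrivChar₁ N) z /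
        LFunctionTrivChar₁ N z) ((s : ℂ) + θ * I)) (𝓝[>] 1)
        (𝓝 ((fun z => -deriv (LFunctionTrivChar₁ N) z / LFunctionTrivChar₁ N z) z₀)) :=
      hG.tendsto.comp (tend_path θ)
    have h2 := tend_sub.mul h1
    rw [zero_mul] at h2
    have h3 : Tendsto (fun s : ℝ => ((s : ℂ) - 1) / ((s : ℂ) + θ * I - 1)) (𝓝[>] 1)
        (𝓝 (if (1 : DirichletCharacter ℂ N) = 1 ∧ θ = 0 then 1 else 0)) := by
      by_cases hθ : θ = 0
      · rw [if_pos ⟨rfl, hθ⟩]
        refine (tendsto_const_nhds (x := (1 : ℂ))).congr' ?_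
        filter_upwards [self_mem_nhdsWithin] with s hs
        have hs1 : (1 : ℝ) < s := hs
        have hs' : (s : ℂ) - 1 ≠ 0 := by
          have : ((s - 1 : ℝ) : ℂ) ≠ 0 := by
            exact_mod_cast (sub_pos.mpr hs1).ne'
          push_cast at this
          exact this
        rw [hθ]
        simp [div_self hs']
      · rw [if_neg (fun h => hθ h.2)]
        have h4 : Tendsto (fun s : ℝ => (s : ℂ) + θ * I - 1) (𝓝[>] 1) (𝓝 (1 + θ * I - 1)) :=
          (tend_path θ).sub_const 1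
        have h5 : (1 + θ * I - 1 : ℂ) ≠ 0 := by
          simp [hθ]
        have h6 := tend_sub.div h4 h5
        rwa [zero_div] at h6
    have h4 := h2.add h3
    rw [zero_add] at h4
    refine h4.congr' ?_
    filter_upwards [self_mem_nhdsWithin] with s hs
    have hs1 : (1 : ℝ) < s := hs
    have hre : 1 < ((s : ℂ) + θ * I).re := by rw [re_path]; exact hs1
    set z : ℂ := (s : ℂ) + θ * I with hz
    have hz1 : z ≠ 1 := by
      intro h
      rw [h] at hre
      norm_num at hre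
    have e1 : LSeries ((fun n : ℕ => ((1 : DirichletCharacter ℂ N) n : ℂ)) * (fun n : ℕ => ((Λ n : ℝ) : ℂ))) z =
        -deriv (LFunctionTrivChar N) z / LFunctionTrivChar N z := by
      rw [LSeries_twist_vonMangoldt_eq _ hre, LFunctionTrivChar,
        deriv_LFunction_eq_deriv_LSeries _ hre, LFunction_eq_LSeries _ hre]
    have hLz : LFunctionTrivChar N z ≠ 0 :=
      LFunction_ne_zero_of_one_le_re _ (.inr hz1) hre.le
    have hzs : z - 1 ≠ 0 := sub_ne_zero_of_ne hz1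
    rw [e1]
    show (↑s - 1) * (-deriv (LFunctionTrivChar₁ N) z / LFunctionTrivChar₁ N z) +
      (↑s - 1) / (z - 1) = _
    rw [deriv_LFunctionTrivChar₁_apply_of_ne_one N hz1]
    have e2 : LFunctionTrivChar₁ N z = (z - 1) * LFunctionTrivChar N z := by
      rw [LFunctionTrivChar₁, Function.update_of_ne hz1]
    rw [e2]
    field_simp
    ring
  · rw [if_neg (fun h => hχ h.1)]
    set z₀ : ℂ := 1 + θ * I with hz₀
    have hL0 : LFunction χ z₀ ≠ 0 := LFunction_ne_zero_of_one_le_re _ (.inl hχ) (by simp [hz₀])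
    have hd := differentiable_LFunction hχ
    have hG : ContinuousAt (fun z => -deriv (LFunction χ) z / LFunction χ z) z₀ :=
      ((hd.contDiff.continuous_deriv le_rfl).neg.continuousAt).div hd.continuous.continuousAt hL0
    have h1 : Tendsto (fun s : ℝ => (fun z => -deriv (LFunction χ) z / LFunction χ z)
        ((s : ℂ) + θ * I)) (𝓝[>] 1)
        (𝓝 ((fun z => -deriv (LFunction χ) z / LFunction χ z) z₀)) :=
      hG.tendsto.comp (tend_path θ)
    have h2 := tend_sub.mul h1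
    rw [zero_mul] at h2
    refine h2.congr' ?_
    filter_upwards [self_mem_nhdsWithin] with s hs
    have hs1 : (1 : ℝ) < s := hs
    have hre : 1 < ((s : ℂ) + θ * I).re := by rw [re_path]; exact hs1
    rw [LSeries_twist_vonMangoldt_eq _ hre, ← deriv_LFunction_eq_deriv_LSeries _ hre,
      ← LFunction_eq_LSeries _ hre]

/-- uniqueness of the primitive character -/
theorem prim_eq {N : ℕ} [NeZero N] (a b : PrimChar) (ha : a.q ∣ N) (hb : b.q ∣ N)
    (h : changeLevel ha a.χ = changeLevel hb b.χ) : a = b := by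
  obtain ⟨q, hq, χ, hχ⟩ := a
  obtain ⟨q', hq', χ', hχ'⟩ := b
  have h1 : q = q' := by
    have e1 := conductor_changeLevel χ ha
    have e2 := conductor_changeLevel χ' hb
    have e3 : (changeLevel ha χ).conductor = (changeLevel hb χ').conductor := by
      have h' : changeLevel ha χ = changeLevel hb χ' := h
      rw [h']
    rw [e1, e2] at e3
    have e4 : χ.conductor = q := hχ
    have e5 : χ'.conductor = q' := hχ'
    rw [← e4, ← e5, e3]
  subst h1
  have h2 : χ = χ' := changeLevel_injective ha h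
  subst h2
  rfl

section
variable {W : Type} [Fintype W] {N : ℕ} [NeZero N] (Φ : W → DirichletCharacter ℂ N)
  (θ : W → ℝ) (ε : W → ℝ)

/-- the combination -/
noncomputable def aa (n : ℕ) : ℂ := ∑ w, (ε w : ℂ) * (Φ w n * (n : ℂ) ^ (-(θ w * I : ℂ)))

omit [NeZero N] in
theorem norm_aa_le (hε : ∀ w, |ε w| ≤ 1) {n : ℕ} (hn : 1 ≤ n) :
    ‖aa Φ θ ε n‖ ≤ Fintype.card W := by
  unfold aa
  refine (norm_sum_le _ _).trans ?_
  calc ∑ w, ‖(ε w : ℂ) * (Φ w n * (n : ℂ) ^ (-(θ w * I : ℂ)))‖ ≤ ∑ _w : W, (1 : ℝ) := by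
        apply Finset.sum_le_sum
        intro w _
        have hn0 : (0 : ℝ) < n := by exact_mod_cast hn
        have e1 : ‖(n : ℂ) ^ (-(θ w * I : ℂ))‖ = 1 := by
          rw [Complex.norm_natCast_cpow_of_pos (by omega)]
          simp
        rw [norm_mul, norm_mul, e1, mul_one, Complex.norm_real, Real.norm_eq_abs]
        have e2 := (Φ w).norm_le_one (n : ZMod N)
        have e3 := hε w
        have e4 := abs_nonneg (ε w)
        have e5 := norm_nonneg (Φ w (n : ZMod N))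
        nlinarith
    _ = Fintype.card W := by simp

omit [NeZero N] in
theorem aa_sq {n : ℕ} (hn : 1 ≤ n) : (((‖aa Φ θ ε n‖ ^ 2 : ℝ)) : ℂ) =
    ∑ w, ∑ w', ((ε w * ε w' : ℝ) : ℂ) * ((Φ w * (Φ w')⁻¹) n *
      (n : ℂ) ^ (-((θ w - θ w' : ℝ) * I : ℂ))) := by
  have h1 : (((‖aa Φ θ ε n‖ ^ 2 : ℝ)) : ℂ) = aa Φ θ ε n * (starRingEnd ℂ) (aa Φ θ ε n) := by
    rw [Complex.mul_conj, Complex.normSq_eq_norm_sq]
  rw [h1]
  unfold aa
  rw [map_sum, Finset.sum_mul_sum]
  apply Finset.sum_congr rfl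
  intro w _
  apply Finset.sum_congr rfl
  intro w' _
  have hn0 : (n : ℂ) ≠ 0 := by exact_mod_cast (by omega : n ≠ 0)
  have e1 : (starRingEnd ℂ) ((n : ℂ) ^ (-(θ w' * I : ℂ))) = (n : ℂ) ^ ((θ w' * I : ℂ)) := by
    have harg : (n : ℂ).arg ≠ Real.pi := by
      rw [Complex.natCast_arg]
      exact Real.pi_pos.ne
    have e0 := Complex.cpow_conj (n : ℂ) (-(θ w' * I : ℂ)) harg
    rw [Complex.conj_natCast] at e0
    rw [← e0]
    congr 1
    simp
  have e2 : (starRingEnd ℂ) (Φ w' n) = (Φ w')⁻¹ n := MulChar.star_apply' (Φ w') (n : ZMod N)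
  rw [map_mul, map_mul, Complex.conj_ofReal, e1, e2]
  have e3 : (n : ℂ) ^ (-((θ w - θ w' : ℝ) * I : ℂ)) =
      (n : ℂ) ^ (-(θ w * I : ℂ)) * (n : ℂ) ^ ((θ w' * I : ℂ)) := by
    rw [← Complex.cpow_add _ _ hn0]
    congr 1
    push_cast
    ring
  rw [e3, MulChar.mul_apply]
  push_cast
  ring

/-- the real series -/
noncomputable def SS (s : ℝ) : ℝ := ∑' n : ℕ, (s - 1) * (Λ n * ‖aa Φ θ ε n‖ ^ 2 * (n : ℝ) ^ (-s))

theorem term_eq {s : ℝ} (n : ℕ) :
    (((Λ n * ‖aa Φ θ ε n‖ ^ 2 * (n : ℝ) ^ (-s) : ℝ)) : ℂ) =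
      ∑ w, ∑ w', ((ε w * ε w' : ℝ) : ℂ) *
        LSeries.term ((fun n : ℕ => ((Φ w * (Φ w')⁻¹) n : ℂ)) * (fun n : ℕ => ((Λ n : ℝ) : ℂ))) ((s : ℂ) + (θ w - θ w' : ℝ) * I) n := by
  rcases Nat.eq_zero_or_pos n with rfl | hn
  · simp
  · have hn0 : (n : ℂ) ≠ 0 := by exact_mod_cast hn.ne'
    push_cast
    have h1 := aa_sq Φ θ ε hn
    push_cast at h1
    rw [h1]
    rw [Complex.ofReal_cpow (Nat.cast_nonneg n)]
    rw [Finset.mul_sum, Finset.sum_mul]
    apply Finset.sum_congr rfl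
    intro w _
    rw [Finset.mul_sum, Finset.sum_mul]
    apply Finset.sum_congr rfl
    intro w' _
    rw [LSeries.term_of_ne_zero hn.ne', Pi.mul_apply]
    have e1 : (n : ℂ) ^ ((s : ℂ) + ((θ w : ℂ) - θ w') * I) =
        (n : ℂ) ^ (s : ℂ) * (n : ℂ) ^ (((θ w : ℂ) - θ w') * I) := Complex.cpow_add _ _ hn0
    push_cast
    rw [e1, Complex.cpow_neg, Complex.cpow_neg]
    have e2 : (n : ℂ) ^ (s : ℂ) ≠ 0 := by
      rw [Complex.cpow_ne_zero_iff]
      exact Or.inl hn0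
    have e3 : (n : ℂ) ^ (((θ w : ℂ) - θ w') * I) ≠ 0 := by
      rw [Complex.cpow_ne_zero_iff]
      exact Or.inl hn0
    field_simp

theorem SS_eq {s : ℝ} (hs : 1 < s) : ((SS Φ θ ε s : ℝ) : ℂ) =
    ∑ w, ∑ w', ((ε w * ε w' : ℝ) : ℂ) * (((s : ℂ) - 1) *
      LSeries ((fun n : ℕ => ((Φ w * (Φ w')⁻¹) n : ℂ)) * (fun n : ℕ => ((Λ n : ℝ) : ℂ))) ((s : ℂ) + (θ w - θ w' : ℝ) * I)) := by
  have hsm : ∀ w w', LSeriesSummable ((fun n : ℕ => ((Φ w * (Φ w')⁻¹) n : ℂ)) * (fun n : ℕ => ((Λ n : ℝ) : ℂ)))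
      ((s : ℂ) + (θ w - θ w' : ℝ) * I) := fun w w' =>
    LSeriesSummable_twist_vonMangoldt _ (by rw [re_path]; exact hs)
  have hhs : HasSum (fun n => (((Λ n * ‖aa Φ θ ε n‖ ^ 2 * (n : ℝ) ^ (-s) : ℝ)) : ℂ))
      (∑ w, ∑ w', ((ε w * ε w' : ℝ) : ℂ) *
        LSeries ((fun n : ℕ => ((Φ w * (Φ w')⁻¹) n : ℂ)) * (fun n : ℕ => ((Λ n : ℝ) : ℂ))) ((s : ℂ) + (θ w - θ w' : ℝ) * I)) := by
    have h1 : (fun n => (((Λ n * ‖aa Φ θ ε n‖ ^ 2 * (n : ℝ) ^ (-s) : ℝ)) : ℂ)) = fun n =>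
      ∑ w, ∑ w', ((ε w * ε w' : ℝ) : ℂ) *
        LSeries.term ((fun n : ℕ => ((Φ w * (Φ w')⁻¹) n : ℂ)) * (fun n : ℕ => ((Λ n : ℝ) : ℂ))) ((s : ℂ) + (θ w - θ w' : ℝ) * I) n :=
      funext fun n => term_eq Φ θ ε n
    rw [h1]
    apply hasSum_sum
    intro w _
    apply hasSum_sum
    intro w' _
    exact (hsm w w').hasSum.mul_left _
  have h2 : ((SS Φ θ ε s : ℝ) : ℂ) = ∑' n : ℕ, ((s : ℂ) - 1) *
      (((Λ n * ‖aa Φ θ ε n‖ ^ 2 * (n : ℝ) ^ (-s) : ℝ)) : ℂ) := by
    unfold SS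
    rw [Complex.ofReal_tsum]
    apply tsum_congr
    intro n
    push_cast
    ring
  rw [h2, tsum_mul_left, hhs.tsum_eq, Finset.mul_sum]
  apply Finset.sum_congr rfl
  intro w _
  rw [Finset.mul_sum]
  apply Finset.sum_congr rfl
  intro w' _
  ring

open scoped Classical in
theorem SS_lim : Tendsto (fun s : ℝ => ((SS Φ θ ε s : ℝ) : ℂ)) (𝓝[>] 1)
    (𝓝 (∑ w, ∑ w', ((ε w * ε w' : ℝ) : ℂ) *
      (if Φ w * (Φ w')⁻¹ = 1 ∧ θ w - θ w' = 0 then 1 else 0))) := by
  have h1 : Tendsto (fun s : ℝ => ∑ w, ∑ w', ((ε w * ε w' : ℝ) : ℂ) * (((s : ℂ) - 1) *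
      LSeries ((fun n : ℕ => ((Φ w * (Φ w')⁻¹) n : ℂ)) * (fun n : ℕ => ((Λ n : ℝ) : ℂ))) ((s : ℂ) + (θ w - θ w' : ℝ) * I))) (𝓝[>] 1)
    (𝓝 (∑ w, ∑ w', ((ε w * ε w' : ℝ) : ℂ) *
      (if Φ w * (Φ w')⁻¹ = 1 ∧ θ w - θ w' = 0 then 1 else 0))) := by
    apply tendsto_finsetSum
    intro w _
    apply tendsto_finsetSum
    intro w' _
    exact (lim_log (Φ w * (Φ w')⁻¹) (θ w - θ w')).const_mul _
  refine h1.congr' ?_
  filter_upwards [self_mem_nhdsWithin] with s hs
  exact (SS_eq Φ θ ε hs).symm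

omit [NeZero N] in
theorem SS_zero (hε : ∀ w, |ε w| ≤ 1)
    (hsum : Summable (fun p : {p : ℕ // p.Prime ∧ aa Φ θ ε p ≠ 0} => (1 : ℝ) / ((p : ℕ) : ℝ))) :
    Tendsto (SS Φ θ ε) (𝓝[>] 1) (𝓝 0) := by
  classical
  set K : ℝ := (Fintype.card W : ℝ) ^ 2 with hK
  have hK0 : 0 ≤ K := by positivity
  have hb1 : Summable (fun n : ℕ => if n.Prime ∧ aa Φ θ ε n ≠ 0 then (1 : ℝ) / n else 0) := by
    have h1 := (summable_subtype_iff_indicator (s := {p : ℕ | p.Prime ∧ aa Φ θ ε p ≠ 0})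
      (f := fun n : ℕ => (1 : ℝ) / n)).mp hsum
    refine h1.congr fun n => ?_
    rw [Set.indicator_apply]
    rfl
  have hb2 : Summable (fun n : ℕ => (if n.Prime then 0 else Λ n) / (n : ℝ)) := by
    have h1 := ArithmeticFunction.vonMangoldt.summable_residueClass_non_primes_div
      (q := 1) (a := (1 : ZMod 1))
    refine h1.congr fun n => ?_
    split_ifs
    · rfl
    · congr 1
      unfold ArithmeticFunction.vonMangoldt.residueClass
      rw [Set.indicator_of_mem]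
      show ((n : ZMod 1)) = 1
      exact Subsingleton.elim _ _
  have hb := (hb1.add hb2).mul_left K
  have hmain : Tendsto (fun s : ℝ => ∑' n : ℕ, (s - 1) * (Λ n * ‖aa Φ θ ε n‖ ^ 2 *
      (n : ℝ) ^ (-s))) (𝓝[>] 1) (𝓝 (∑' _n : ℕ, (0 : ℝ))) := by
    refine tendsto_tsum_of_dominated_convergence hb ?_ ?_
    · intro n
      rcases Nat.eq_zero_or_pos n with rfl | hn
      · simp
      · have hn0 : (0 : ℝ) < n := by exact_mod_cast hn
        have hc : Continuous fun s : ℝ => (s - 1) * (Λ n * ‖aa Φ θ ε n‖ ^ 2 *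
            (n : ℝ) ^ (-s)) := by
          have : Continuous fun s : ℝ => (n : ℝ) ^ (-s) :=
            (Real.continuous_const_rpow hn0.ne').comp continuous_neg
          fun_prop
        have h1 := (hc.tendsto 1).mono_left (nhdsWithin_le_nhds (s := Set.Ioi (1 : ℝ)))
        simpa using h1
    · have hIoo : Set.Ioo (1 : ℝ) 2 ∈ 𝓝[>] (1 : ℝ) := Ioo_mem_nhdsGT (by norm_num)
      filter_upwards [hIoo] with s hs n
      obtain ⟨hs1, hs2⟩ := hs
      rcases Nat.eq_zero_or_pos n with rfl | hn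
      · simp
      · have hn0 : (0 : ℝ) < n := by exact_mod_cast hn
        have hn1 : (1 : ℝ) ≤ n := by exact_mod_cast hn
        have hΛ : 0 ≤ Λ n := ArithmeticFunction.vonMangoldt_nonneg
        have ha2 : ‖aa Φ θ ε n‖ ^ 2 ≤ K := by
          rw [hK]
          exact pow_le_pow_left₀ (norm_nonneg _) (norm_aa_le Φ θ ε hε hn) 2
        have hpow0 : 0 < (n : ℝ) ^ (-s) := Real.rpow_pos_of_pos hn0 _
        rw [Real.norm_eq_abs, abs_of_nonneg (by
          have : 0 ≤ s - 1 := by linarith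
          positivity)]
        have hsplit : (n : ℝ) ^ (-s) = (1 / n) * (n : ℝ) ^ (-(s - 1)) := by
          rw [show (-s : ℝ) = -1 + -(s - 1) by ring, Real.rpow_add hn0, Real.rpow_neg_one]
          rw [one_div]
        by_cases hp : n.Prime
        · by_cases ha : aa Φ θ ε n = 0
          · rw [ha]
            simp [hp]
          · rw [if_pos ⟨hp, ha⟩, if_pos hp, zero_div, add_zero]
            have hlog : Λ n = Real.log n := ArithmeticFunction.vonMangoldt_apply_prime hp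
            have hx : (s - 1) * Real.log n * (n : ℝ) ^ (-(s - 1)) ≤ 1 := by
              have e1 : (n : ℝ) ^ (-(s - 1)) = Real.exp (-((s - 1) * Real.log n)) := by
                rw [Real.rpow_def_of_pos hn0]
                congr 1
                ring
              rw [e1, Real.exp_neg, ← div_eq_mul_inv, div_le_one (Real.exp_pos _)]
              have := Real.add_one_le_exp ((s - 1) * Real.log n)
              linarith
            have hlog0 : 0 ≤ Real.log n := Real.log_nonneg hn1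
            have hq0 : 0 ≤ (s - 1) * Real.log n * (n : ℝ) ^ (-(s - 1)) := by
              have : 0 ≤ s - 1 := by linarith
              positivity
            rw [hlog, hsplit]
            calc (s - 1) * (Real.log n * ‖aa Φ θ ε n‖ ^ 2 * (1 / n * (n : ℝ) ^ (-(s - 1))))
                = ‖aa Φ θ ε n‖ ^ 2 * (1 / n) * ((s - 1) * Real.log n * (n : ℝ) ^ (-(s - 1))) := by
                  ring
              _ ≤ K * (1 / n) * 1 := by
                  apply mul_le_mul _ hx hq0 (by positivity)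
                  exact mul_le_mul_of_nonneg_right ha2 (by positivity)
              _ = K * (1 / n) := by ring
        · rw [if_neg (fun h => hp h.1), if_neg hp, zero_add]
          have h1 : (n : ℝ) ^ (-s) ≤ 1 / n := by
            rw [hsplit]
            have : (n : ℝ) ^ (-(s - 1)) ≤ 1 := Real.rpow_le_one_of_one_le_of_nonpos hn1 (by linarith)
            have h2 : 0 ≤ 1 / (n : ℝ) := by positivity
            nlinarith
          calc (s - 1) * (Λ n * ‖aa Φ θ ε n‖ ^ 2 * (n : ℝ) ^ (-s))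
              ≤ 1 * (Λ n * K * (1 / n)) := by
                apply mul_le_mul (by linarith) _ (by positivity) (by norm_num)
                apply mul_le_mul _ h1 hpow0.le (by positivity)
                exact mul_le_mul_of_nonneg_left ha2 hΛ
            _ = K * (Λ n / n) := by ring
  rw [tsum_zero] at hmain
  exact hmain

end

theorem summable_sub {A B : ℕ → Prop} (h : ∀ p, A p → B p)
    (hs : Summable fun p : {p : ℕ // B p} => (1 : ℝ) / ((p : ℕ) : ℝ)) :
    Summable fun p : {p : ℕ // A p} => (1 : ℝ) / ((p : ℕ) : ℝ) := by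
  have h1 : Summable (Set.indicator {p | B p} fun n : ℕ => (1 : ℝ) / n) :=
    (summable_subtype_iff_indicator (s := {p | B p}) (f := fun n : ℕ => (1 : ℝ) / n)).mp hs
  refine (summable_subtype_iff_indicator (s := {p | A p}) (f := fun n : ℕ => (1 : ℝ) / n)).mpr ?_
  refine h1.of_nonneg_of_le (fun n => Set.indicator_nonneg (fun _ _ => by positivity) n) fun n => ?_
  exact Set.indicator_le_indicator_of_subset (fun p hp => h p hp) (fun _ => by positivity) n

/-- DV0 -/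
theorem dv0 : T_DV0 := by
  classical
  intro U V _ _ ψ τ χ σ hne hW hsum
  set φ : U ⊕ V → PrimChar := Sum.elim ψ χ with hφ
  set θ : U ⊕ V → ℝ := Sum.elim τ σ with hθ
  set ε : U ⊕ V → ℝ := Sum.elim (fun _ => 1) (fun _ => -1) with hεd
  set N : ℕ := ∏ w, (φ w).q with hN
  have hN0 : N ≠ 0 := Finset.prod_ne_zero_iff.mpr fun w _ => (φ w).q_ne.out
  have : NeZero N := ⟨hN0⟩
  have hdvd : ∀ w, (φ w).q ∣ N := fun w => Finset.dvd_prod_of_mem _ (Finset.mem_univ w)
  set Φ : U ⊕ V → DirichletCharacter ℂ N := fun w => changeLevel (hdvd w) (φ w).χ with hΦ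
  have hε : ∀ w, |ε w| ≤ 1 := by
    rintro (w | w) <;> simp [hεd]
  -- comparison at primes
  have hsub : ∀ p : ℕ, p.Prime → aa Φ θ ε p ≠ 0 →
      ∑ i, (ψ i).χ (p : ZMod (ψ i).q) * (p : ℂ) ^ (-(τ i * I : ℂ)) -
        ∑ j, (χ j).χ (p : ZMod (χ j).q) * (p : ℂ) ^ (-(σ j * I : ℂ)) ≠ 0 := by
    intro p hp ha h0
    by_cases hpN : p ∣ N
    · apply ha
      unfold aa
      apply Finset.sum_eq_zero
      intro w _
      have h1 : Φ w (p : ZMod N) = 0 := by
        apply MulChar.map_nonunit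
        rw [ZMod.isUnit_iff_coprime]
        intro hco
        have := Nat.Coprime.eq_one_of_dvd hco hpN
        exact hp.one_lt.ne' this
      rw [h1]
      ring
    · apply ha
      have hcop : Nat.Coprime p N := (Nat.Prime.coprime_iff_not_dvd hp).mpr hpN
      have hval : ∀ w, Φ w (p : ZMod N) = (φ w).χ (p : ZMod (φ w).q) := by
        intro w
        have h1 := changeLevel_eq_cast_of_dvd' (φ w).χ (hdvd w) (a := (p : ℤ))
          (Nat.isCoprime_iff_coprime.mpr hcop)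
        simpa using h1
      rw [← h0]
      unfold aa
      rw [Fintype.sum_sum_type, sub_eq_add_neg, ← Finset.sum_neg_distrib]
      congr 1
      · apply Finset.sum_congr rfl
        intro i _
        rw [hval]
        show ((1 : ℝ) : ℂ) * ((ψ i).χ (p : ZMod (ψ i).q) * (p : ℂ) ^ (-(τ i * I : ℂ))) = _
        rw [Complex.ofReal_one, one_mul]
      · apply Finset.sum_congr rfl
        intro j _
        rw [hval]
        show ((-1 : ℝ) : ℂ) * ((χ j).χ (p : ZMod (χ j).q) * (p : ℂ) ^ (-(σ j * I : ℂ))) = _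
        push_cast
        ring
  have hsum' : Summable (fun p : {p : ℕ // p.Prime ∧ aa Φ θ ε p ≠ 0} =>
      (1 : ℝ) / ((p : ℕ) : ℝ)) :=
    summable_sub (A := fun p => p.Prime ∧ aa Φ θ ε p ≠ 0) (fun p hp => ⟨hp.1, hsub p hp.1 hp.2⟩)
      hsum
  have hz := SS_zero Φ θ ε hε hsum'
  have hz' : Tendsto (fun s : ℝ => ((SS Φ θ ε s : ℝ) : ℂ)) (𝓝[>] 1) (𝓝 ((0 : ℝ) : ℂ)) :=
    (Complex.continuous_ofReal.tendsto 0).comp hz
  have hl := SS_lim Φ θ ε
  have huniq := tendsto_nhds_unique hl hz'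
  -- the limit is at least the number of indices
  have hkey : ∀ w w', (Φ w * (Φ w')⁻¹ = 1 ∧ θ w - θ w' = 0) → ε w * ε w' = 1 := by
    rintro w w' ⟨h1, h2⟩
    have h3 : Φ w = Φ w' := mul_inv_eq_one.mp h1
    have h4 : φ w = φ w' := prim_eq (φ w) (φ w') (hdvd w) (hdvd w') h3
    have h5 : θ w = θ w' := by linarith
    rcases w with w | w <;> rcases w' with w' | w'
    · simp [hεd]
    · exact absurd ⟨h4, h5⟩ (hne w w')
    · exact absurd ⟨h4.symm, h5.symm⟩ (hne w' w)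
    · simp [hεd]
  have hreal : (∑ w, ∑ w', ((ε w * ε w' : ℝ) : ℂ) *
      (if Φ w * (Φ w')⁻¹ = 1 ∧ θ w - θ w' = 0 then 1 else 0)) =
      (((∑ w, ∑ w', (if Φ w * (Φ w')⁻¹ = 1 ∧ θ w - θ w' = 0 then (1 : ℝ) else 0)) : ℝ) : ℂ) := by
    push_cast
    apply Finset.sum_congr rfl
    intro w _
    apply Finset.sum_congr rfl
    intro w' _
    split_ifs with h
    · have := hkey w w' h
      rw [mul_one]
      exact_mod_cast this
    · rw [mul_zero, Complex.ofReal_zero]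
  rw [hreal] at huniq
  have h0 : (∑ w, ∑ w', (if Φ w * (Φ w')⁻¹ = 1 ∧ θ w - θ w' = 0 then (1 : ℝ) else 0)) = 0 := by
    exact_mod_cast huniq
  obtain ⟨w₀⟩ := hW
  have h1 : (1 : ℝ) ≤ ∑ w, ∑ w', (if Φ w * (Φ w')⁻¹ = 1 ∧ θ w - θ w' = 0 then (1 : ℝ) else 0) := by
    have hnn : ∀ w w', (0 : ℝ) ≤ (if Φ w * (Φ w')⁻¹ = 1 ∧ θ w - θ w' = 0 then (1 : ℝ) else 0) := by
      intro w w'
      split_ifs <;> norm_num
    calc (1 : ℝ) = (if Φ w₀ * (Φ w₀)⁻¹ = 1 ∧ θ w₀ - θ w₀ = 0 then (1 : ℝ) else 0) := by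
          rw [if_pos ⟨mul_inv_cancel _, sub_self _⟩]
      _ ≤ ∑ w', (if Φ w₀ * (Φ w')⁻¹ = 1 ∧ θ w₀ - θ w' = 0 then (1 : ℝ) else 0) :=
          Finset.single_le_sum (f := fun w' => (if Φ w₀ * (Φ w')⁻¹ = 1 ∧ θ w₀ - θ w' = 0
            then (1 : ℝ) else 0)) (fun w' _ => hnn w₀ w') (Finset.mem_univ w₀)
      _ ≤ _ := Finset.single_le_sum (f := fun w => ∑ w', (if Φ w * (Φ w')⁻¹ = 1 ∧ θ w - θ w' = 0
            then (1 : ℝ) else 0)) (fun w _ => Finset.sum_nonneg fun w' _ => hnn w w')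
            (Finset.mem_univ w₀)
  rw [h0] at h1
  norm_num at h1

end Pool.Agent.H80.MZ
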