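import Pool.Agent.H25.MZ.Targets

/-!
# Module AR0: a frequency with a non-zero coefficient (helper80)
-/

set_option autoImplicit false

open Complex MeasureTheory Set

namespace Pool.Agent.H80.MZ

open Pool.Agent.H25.DL Pool.Agent.H25.MZ

theorem summable_pi {ι : Type} [Fintype ι] (g : ι → ℕ → ℝ) (hg : ∀ l n, 0 ≤ g l n)
    (hs : ∀ l, Summable (g l)) : Summable (fun z : ι → ℕ => ∏ l, g l (z l)) := by
  classical
  apply summable_of_sum_le (c := ∏ l, ∑' n, g l n)
  · intro z
    exact Finset.prod_nonneg fun l _ => hg l _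
  · intro s
    have h1 : s ⊆ Fintype.piFinset (fun l => s.image (fun z => z l)) := by
      intro z hz
      rw [Fintype.mem_piFinset]
      intro l
      exact Finset.mem_image_of_mem _ hz
    calc ∑ z ∈ s, ∏ l, g l (z l)
        ≤ ∑ z ∈ Fintype.piFinset (fun l => s.image (fun z => z l)), ∏ l, g l (z l) :=
          Finset.sum_le_sum_of_subset_of_nonneg h1
            (fun z _ _ => Finset.prod_nonneg fun l _ => hg l _)
      _ = ∏ l, ∑ n ∈ s.image (fun z => z l), g l n := (Finset.prod_univ_sum _ _).symm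
      _ ≤ ∏ l, ∑' n, g l n := Finset.prod_le_prod
          (fun l _ => Finset.sum_nonneg fun n _ => hg l n)
          (fun l _ => (hs l).sum_le_tsum _ (fun n _ => hg l n))

section
variable {ι : Type} [Fintype ι] (f : ι → Fac) (μ : ℝ)

/-- primes whose frequency has a tuple using a larger dilation -/
def Bad : Set ℕ := {p | p.Prime ∧ ∃ z : ι → ℕ, (∀ l, 1 ≤ z l) ∧ fr f z = μ * Real.log p ∧
  ∃ l, μ < (f l).r ∧ 2 ≤ z l}

open scoped Classical in
/-- the indices with dilation larger than `μ` -/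
noncomputable def L1 : Finset ι := Finset.univ.filter fun l => μ < (f l).r

open scoped Classical in
/-- the indices with dilation `μ` -/
noncomputable def L0 : Finset ι := Finset.univ.filter fun l => ¬ μ < (f l).r

/-- the real part of the product -/
noncomputable def XX (z : ι → ℕ) : ℝ := ∏ l ∈ L1 f μ, (z l : ℝ) ^ ((f l).r / μ)

/-- the integral part of the product -/
noncomputable def AA (z : ι → ℕ) : ℕ := ∏ l ∈ L0 f μ, z l

variable {f μ}

theorem sum_split (F : ι → ℝ) : ∑ l, F l = ∑ l ∈ L0 f μ, F l + ∑ l ∈ L1 f μ, F l := by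
  classical
  unfold L0 L1
  rw [add_comm]
  convert (Finset.sum_filter_add_sum_filter_not Finset.univ (fun l => μ < (f l).r) F).symm

theorem mem_L0 (hr : ∀ l, μ ≤ (f l).r) {l : ι} : l ∈ L0 f μ ↔ (f l).r = μ := by
  classical
  unfold L0
  simp only [Finset.mem_filter, Finset.mem_univ, true_and, not_lt]
  exact ⟨fun h => le_antisymm h (hr l), fun h => h.le⟩

theorem mem_L1 {l : ι} : l ∈ L1 f μ ↔ μ < (f l).r := by
  classical
  unfold L1
  simp

theorem XX_pos {z : ι → ℕ} (hz : ∀ l, 1 ≤ z l) : 0 < XX f μ z :=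
  Finset.prod_pos fun l _ => Real.rpow_pos_of_pos (by exact_mod_cast hz l) _

theorem AA_pos {z : ι → ℕ} (hz : ∀ l, 1 ≤ z l) : 0 < AA f μ z :=
  Finset.prod_pos fun l _ => hz l

theorem log_XX {z : ι → ℕ} (hz : ∀ l, 1 ≤ z l) :
    Real.log (XX f μ z) = ∑ l ∈ L1 f μ, (f l).r / μ * Real.log (z l) := by
  unfold XX
  rw [Real.log_prod]
  · apply Finset.sum_congr rfl
    intro l _
    rw [Real.log_rpow (by exact_mod_cast hz l)]
  · intro l _
    exact (Real.rpow_pos_of_pos (by exact_mod_cast hz l) _).ne'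

theorem log_AA {z : ι → ℕ} (hz : ∀ l, 1 ≤ z l) :
    Real.log (AA f μ z : ℝ) = ∑ l ∈ L0 f μ, Real.log (z l) := by
  unfold AA
  push_cast
  rw [Real.log_prod]
  intro l _
  have : (1 : ℝ) ≤ z l := by exact_mod_cast hz l
  linarith

theorem split_eq (hμ : 0 < μ) (hr : ∀ l, μ ≤ (f l).r) {z : ι → ℕ} (hz : ∀ l, 1 ≤ z l) {p : ℕ}
    (hp : 0 < p) (h : fr f z = μ * Real.log p) : (p : ℝ) = AA f μ z * XX f μ z := by
  have hX := XX_pos (f := f) (μ := μ) hz
  have hA : (0 : ℝ) < AA f μ z := by exact_mod_cast AA_pos (f := f) (μ := μ) hz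
  have hp0 : (0 : ℝ) < p := by exact_mod_cast hp
  apply Real.log_injOn_pos (show (p : ℝ) ∈ Ioi 0 from hp0)
    (show (AA f μ z : ℝ) * XX f μ z ∈ Ioi 0 from mul_pos hA hX)
  rw [Real.log_mul hA.ne' hX.ne', log_AA hz, log_XX hz]
  have h1 : fr f z = μ * (∑ l ∈ L0 f μ, Real.log (z l) +
      ∑ l ∈ L1 f μ, (f l).r / μ * Real.log (z l)) := by
    unfold fr
    rw [sum_split (f := f) (μ := μ), mul_add, Finset.mul_sum, Finset.mul_sum]
    congr 1
    · apply Finset.sum_congr rfl
      intro l hl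
      rw [(mem_L0 hr).mp hl]
    · apply Finset.sum_congr rfl
      intro l _
      field_simp
  rw [h] at h1
  exact mul_left_cancel₀ hμ.ne' h1

theorem one_lt_XX (hμ : 0 < μ) {z : ι → ℕ} (hz : ∀ l, 1 ≤ z l)
    (hl : ∃ l, μ < (f l).r ∧ 2 ≤ z l) : 1 < XX f μ z := by
  have hX := XX_pos (f := f) (μ := μ) hz
  have h1 : 0 < Real.log (XX f μ z) := by
    rw [log_XX hz]
    obtain ⟨l, h2, h3⟩ := hl
    apply Finset.sum_pos'
    · intro l' _
      have h4 : (1 : ℝ) ≤ z l' := by exact_mod_cast hz l'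
      exact mul_nonneg (div_nonneg (f l').r_pos.le hμ.le) (Real.log_nonneg h4)
    · refine ⟨l, mem_L1.mpr h2, ?_⟩
      have h4 : (2 : ℝ) ≤ z l := by exact_mod_cast h3
      exact mul_pos (div_pos (f l).r_pos hμ) (Real.log_pos (by linarith))
  exact (Real.log_pos_iff hX.le).mp h1

theorem bad_summable (hμ : 0 < μ) (hr : ∀ l, μ ≤ (f l).r) :
    Summable (fun p : Bad f μ => (1 : ℝ) / ((p : ℕ) : ℝ)) := by
  classical
  have hch : ∀ p : Bad f μ, ∃ z : ι → ℕ, (∀ l, 1 ≤ z l) ∧ fr f z = μ * Real.log (p : ℕ) ∧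
      ∃ l, μ < (f l).r ∧ 2 ≤ z l := fun p => p.2.2
  choose z hz1 hz2 hz3 using hch
  set w : Bad f μ → ι → ℕ := fun p l => if μ < (f l).r then z p l else 1 with hw
  have hw1 : ∀ p l, 1 ≤ w p l := by
    intro p l
    simp only [hw]
    split_ifs
    · exact hz1 p l
    · exact le_refl 1
  have hXw : ∀ p, XX f μ (w p) = XX f μ (z p) := by
    intro p
    unfold XX
    apply Finset.prod_congr rfl
    intro l hl
    simp only [hw, if_pos (mem_L1.mp hl)]
  have hpA : ∀ p : Bad f μ, ((p : ℕ) : ℝ) = AA f μ (z p) * XX f μ (z p) := fun p =>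
    split_eq hμ hr (hz1 p) p.2.1.pos (hz2 p)
  have hcop : ∀ p : Bad f μ, ¬ (p : ℕ) ∣ AA f μ (z p) := by
    intro p hdvd
    have h1 : (p : ℕ) ≤ AA f μ (z p) := Nat.le_of_dvd (AA_pos (hz1 p)) hdvd
    have h2 : ((p : ℕ) : ℝ) ≤ AA f μ (z p) := by exact_mod_cast h1
    have h3 := one_lt_XX hμ (hz1 p) (hz3 p)
    have h4 : (0 : ℝ) < AA f μ (z p) := by exact_mod_cast AA_pos (f := f) (μ := μ) (hz1 p)
    have h5 := hpA p
    nlinarith
  have hinj : Function.Injective w := by
    intro p q hpq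
    have hX : XX f μ (z p) = XX f μ (z q) := by rw [← hXw, ← hXw, hpq]
    have h1 : ((p : ℕ) : ℝ) * AA f μ (z q) = ((q : ℕ) : ℝ) * AA f μ (z p) := by
      rw [hpA p, hpA q, hX]
      ring
    have h2 : (p : ℕ) * AA f μ (z q) = (q : ℕ) * AA f μ (z p) := by exact_mod_cast h1
    have h3 : (p : ℕ) ∣ (q : ℕ) * AA f μ (z p) := ⟨_, h2.symm⟩
    rcases (Nat.Prime.dvd_mul p.2.1).mp h3 with h4 | h4
    · exact Subtype.ext ((Nat.prime_dvd_prime_iff_eq p.2.1 q.2.1).mp h4)
    · exact absurd h4 (hcop p)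
  set g : ι → ℕ → ℝ := fun l n => if μ < (f l).r then (n : ℝ) ^ (-((f l).r / μ))
    else if n = 1 then 1 else 0 with hg
  have hg0 : ∀ l n, 0 ≤ g l n := by
    intro l n
    simp only [hg]
    split_ifs
    · positivity
    · exact zero_le_one
    · exact le_refl 0
  have hgs : ∀ l, Summable (g l) := by
    intro l
    by_cases h1 : μ < (f l).r
    · have h2 : g l = fun n : ℕ => (n : ℝ) ^ (-((f l).r / μ)) := by
        funext n
        simp only [hg, if_pos h1]
      rw [h2, Real.summable_nat_rpow]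
      have h3 : 1 < (f l).r / μ := (one_lt_div hμ).mpr h1
      linarith
    · have h2 : g l = fun n : ℕ => if n = 1 then (1 : ℝ) else 0 := by
        funext n
        simp only [hg, if_neg h1]
      rw [h2]
      exact (hasSum_ite_eq 1 (1 : ℝ)).summable
  have hsum := (summable_pi g hg0 hgs).comp_injective hinj
  refine Summable.of_nonneg_of_le (fun p => by positivity) (fun p => ?_) hsum
  have hG : ∏ l, g l (w p l) = (XX f μ (z p))⁻¹ := by
    have h1 : ∀ l, g l (w p l) = if μ < (f l).r then ((z p l : ℝ) ^ ((f l).r / μ))⁻¹ else 1 := by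
      intro l
      by_cases h2 : μ < (f l).r
      · simp only [hg, hw, if_pos h2]
        rw [Real.rpow_neg (Nat.cast_nonneg _)]
      · simp only [hg, hw, if_neg h2, if_true]
    rw [Finset.prod_congr rfl fun l _ => h1 l, ← Finset.prod_filter, Finset.prod_inv_distrib]
    unfold XX L1
    congr 1
  show (1 : ℝ) / ((p : ℕ) : ℝ) ≤ ∏ l, g l (w p l)
  rw [hG, hpA p]
  have h4 : (1 : ℝ) ≤ AA f μ (z p) := by exact_mod_cast AA_pos (f := f) (μ := μ) (hz1 p)
  have h5 := XX_pos (f := f) (μ := μ) (hz1 p)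
  rw [one_div, mul_inv]
  have h6 : (AA f μ (z p) : ℝ)⁻¹ ≤ 1 := inv_le_one_of_one_le₀ h4
  have h7 : 0 < (XX f μ (z p))⁻¹ := by positivity
  nlinarith

/-- the tuple with `p` at the place `l` -/
noncomputable def ee (p : ℕ) (l : ι) : ι → ℕ := by
  classical exact Function.update (fun _ => 1) l p

omit [Fintype ι] in
theorem ee_self (p : ℕ) (l : ι) : ee p l l = p := by
  unfold ee
  simp

omit [Fintype ι] in
theorem ee_ne (p : ℕ) {l l' : ι} (h : l' ≠ l) : ee p l l' = 1 := by
  unfold ee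
  simp [h]

theorem ee_inj {p : ℕ} (hp : 2 ≤ p) : Function.Injective (ee (ι := ι) p) := by
  intro l l' h
  by_contra hne
  have h1 := congrFun h l
  rw [ee_self, ee_ne p hne] at h1
  omega

theorem tup_eq (hμ : 0 < μ) (hr : ∀ l, μ ≤ (f l).r) {p : ℕ} (hp : p.Prime) (hb : p ∉ Bad f μ) :
    tup f (μ * Real.log p) = ee p '' (L0 f μ : Set ι) := by
  classical
  ext z
  constructor
  · rintro ⟨hz, hfr⟩
    have h1 : ∀ l, μ < (f l).r → z l = 1 := by
      intro l hl
      by_contra hne
      apply hb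
      refine ⟨hp, z, hz, hfr, l, hl, ?_⟩
      have := hz l
      omega
    have hX : XX f μ z = 1 := by
      unfold XX
      apply Finset.prod_eq_one
      intro l hl
      rw [h1 l (mem_L1.mp hl)]
      simp
    have hpA := split_eq hμ hr hz hp.pos hfr
    rw [hX, mul_one] at hpA
    have hpA' : p = AA f μ z := by exact_mod_cast hpA
    have h2 : p ∣ ∏ l ∈ L0 f μ, z l := by
      rw [hpA']
      rfl
    obtain ⟨l, hl, hdvd⟩ := (hp.prime.dvd_finsetProd_iff _).mp h2
    have h3 : z l ∣ p := by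
      rw [hpA']
      exact Finset.dvd_prod_of_mem _ hl
    have h4 : z l = p := Nat.dvd_antisymm h3 hdvd
    refine ⟨l, hl, ?_⟩
    funext l'
    by_cases h5 : l' = l
    · rw [h5, ee_self, h4]
    · rw [ee_ne p h5]
      symm
      by_cases h6 : μ < (f l').r
      · exact h1 l' h6
      · have h7 : l' ∈ (L0 f μ).erase l := by
          rw [Finset.mem_erase]
          refine ⟨h5, ?_⟩
          unfold L0
          simp only [Finset.mem_filter, Finset.mem_univ, true_and]
          exact h6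
        have h8 : p * ∏ i ∈ (L0 f μ).erase l, z i = p * 1 := by
          rw [mul_one]
          conv_rhs => rw [hpA']
          unfold AA
          rw [← Finset.mul_prod_erase _ _ hl, h4]
        have h9 : ∏ i ∈ (L0 f μ).erase l, z i = 1 := Nat.eq_of_mul_eq_mul_left hp.pos h8
        exact Nat.dvd_one.mp (h9 ▸ Finset.dvd_prod_of_mem _ h7)
  · rintro ⟨l, hl, rfl⟩
    refine ⟨fun l' => ?_, ?_⟩
    · by_cases h5 : l' = l
      · rw [h5, ee_self]
        exact hp.pos
      · rw [ee_ne p h5]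
    · unfold fr
      rw [Finset.sum_eq_single l]
      · rw [ee_self, (mem_L0 hr).mp hl]
      · intro l' _ h5
        rw [ee_ne p h5]
        simp
      · intro h
        exact absurd (Finset.mem_univ l) h

theorem cz_ee {p : ℕ} (hp : 0 < p) (l : ι) :
    cz f (ee p l) = (p : ℂ) ^ (-(1 / 2) : ℂ) * ((f l).c p * (p : ℂ) ^ (-((f l).τ * I : ℂ))) := by
  unfold cz
  rw [Finset.prod_eq_single l]
  · rw [ee_self]
    have h1 : (-(1 / 2 + (f l).τ * I : ℂ)) = -(1 / 2) + -((f l).τ * I) := by ring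
    rw [h1, Complex.cpow_add _ _ (by exact_mod_cast hp.ne')]
    ring
  · intro l' _ h5
    rw [ee_ne p h5, (f l').c_one]
    simp
  · intro h
    exact absurd (Finset.mem_univ l) h

theorem co_eq (hμ : 0 < μ) (hr : ∀ l, μ ≤ (f l).r) {p : ℕ} (hp : p.Prime) (hb : p ∉ Bad f μ) :
    co f (μ * Real.log p) = (p : ℂ) ^ (-(1 / 2) : ℂ) * pm f μ p := by
  classical
  unfold co
  rw [tup_eq hμ hr hp hb, finsum_mem_image ((ee_inj hp.two_le).injOn), finsum_mem_coe_finset]
  unfold pm
  rw [Finset.mul_sum]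
  have h1 : ∀ l, (p : ℂ) ^ (-(1 / 2) : ℂ) * (if (f l).r = μ then
      (f l).c p * (p : ℂ) ^ (-((f l).τ * I : ℂ)) else 0) = if l ∈ L0 f μ then cz f (ee p l) else 0 := by
    intro l
    by_cases h2 : (f l).r = μ
    · rw [if_pos h2, if_pos ((mem_L0 hr).mpr h2), cz_ee hp.pos]
    · rw [if_neg h2, if_neg (fun h3 => h2 ((mem_L0 hr).mp h3)), mul_zero]
  rw [Finset.sum_congr rfl fun l _ => h1 l, Finset.sum_ite_mem, Finset.univ_inter]

end

/-- AR0 -/
theorem ar0 : T_AR0 := by
  intro ι _ f μ B P hμ hr hP hns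
  by_contra hcon
  push Not at hcon
  apply hns
  have hfin : (P \ Bad f μ).Finite := by
    apply (Set.finite_Iic ⌈Real.exp (B / μ)⌉₊).subset
    rintro p ⟨hp, hb⟩
    obtain ⟨h1, h2⟩ := hP p hp
    have h3 : μ * Real.log p ≤ B := by
      by_contra h4
      push Not at h4
      have h5 := hcon _ h4
      rw [co_eq hμ hr h1 hb] at h5
      rcases mul_eq_zero.mp h5 with h6 | h6
      · rw [Complex.cpow_eq_zero_iff] at h6
        exact h1.ne_zero (by exact_mod_cast h6.1)
      · exact h2 h6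
    have hp0 : (0 : ℝ) < p := by exact_mod_cast h1.pos
    have h4 : Real.log p ≤ B / μ := by
      rw [le_div_iff₀ hμ]
      linarith
    have h5 : (p : ℝ) ≤ Real.exp (B / μ) := (Real.log_le_iff_le_exp hp0).mp h4
    have h6 : (p : ℝ) ≤ ⌈Real.exp (B / μ)⌉₊ := h5.trans (Nat.le_ceil _)
    exact_mod_cast h6
  set F : ℕ → ℝ := fun n => 1 / (n : ℝ) with hF
  have h1 : Summable ((Bad f μ).indicator F) :=
    summable_subtype_iff_indicator.mp (bad_summable hμ hr)
  have h2 : Summable ((P \ Bad f μ).indicator F) := by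
    apply summable_of_hasFiniteSupport
    apply hfin.subset
    exact Set.support_indicator_subset
  have h3 : Summable (P.indicator F) := by
    refine Summable.of_nonneg_of_le (fun n => ?_) (fun n => ?_) (h1.add h2)
    · apply Set.indicator_nonneg
      intro n _
      simp only [hF]
      positivity
    · have hF0 : 0 ≤ F n := by
        simp only [hF]
        positivity
      by_cases hn : n ∈ P
      · by_cases hb : n ∈ Bad f μ
        · have h4 : n ∉ P \ Bad f μ := fun h => h.2 hb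
          rw [Set.indicator_of_mem hn, Set.indicator_of_mem hb, Set.indicator_of_notMem h4]
          linarith
        · have h4 : n ∈ P \ Bad f μ := ⟨hn, hb⟩
          rw [Set.indicator_of_mem hn, Set.indicator_of_notMem hb, Set.indicator_of_mem h4]
          linarith
      · rw [Set.indicator_of_notMem hn]
        apply add_nonneg <;> apply Set.indicator_nonneg <;> intro n _ <;> simp only [hF] <;>
          positivity
  exact summable_subtype_iff_indicator.mpr h3

end Pool.Agent.H80.MZ
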