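import Pool.Agent.H11.DL.Base
import Pool.Agent.H25.MZ.Targets

/-!
# Module SHE, the contour shift at a clean height, arbitrary bound (after helper11, H11/DL/SH.lean)
-/

set_option autoImplicit false

open Complex MeasureTheory Set Filter Topology

namespace Pool.Agent.H80.MZ

open Pool.Agent.H25.DL Pool.Agent.H25.MZ Pool.Agent.H11.DL

theorem she : T_SHE := by
  intro ι _ f Y β C ε hβ hε
  have hlim := tend_aux C (1 + Real.log (4 * β / (β * Real.sqrt Real.pi))) (1 / β ^ 2) (by positivity)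
  have hev : ∀ᶠ T : ℝ in atTop, Real.exp (C * Real.log T + (1 + Real.log (4 * β / (β * Real.sqrt Real.pi))) -
      1 / β ^ 2 * Real.log T ^ 2) < ε := hlim.eventually_lt_const hε
  obtain ⟨T₀, hT₀⟩ := eventually_atTop.1 (hev.and (eventually_ge_atTop (1 : ℝ)))
  refine ⟨T₀, fun T hT u hu hclean => ?_⟩
  obtain ⟨hsmall, hT1⟩ := hT₀ T hT
  obtain ⟨H, hH1, hH2, hH3⟩ := hclean
  set R : ℝ := Real.log T with hR
  have hR0 : 0 ≤ R := Real.log_nonneg hT1
  have hTpos : 0 < T := by linarith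
  set F : ℂ → ℂ := fun s => H s * gs β (s - 1 / 2 - u * I) with hF
  have hbox : ∀ s : ℂ, 1 / 2 - β ≤ s.re → s.re ≤ 1 / 2 + β → |s.im - u| ≤ R → s ∈ box β R u := by
    intro s h1 h2 h3
    exact ⟨abs_le.2 ⟨by linarith, by linarith⟩, h3⟩
  set M : ℝ := T ^ C * (Real.exp (1 - 1 / β ^ 2 * R ^ 2) / (β * Real.sqrt Real.pi)) with hM
  have hπ : 0 < Real.sqrt Real.pi := Real.sqrt_pos.2 Real.pi_pos
  have hbound : ∀ x y : ℝ, 1 / 2 - β ≤ x → x ≤ 1 / 2 + β → y ^ 2 = R ^ 2 → |y| ≤ R →
      ‖F (x + (u + y : ℝ) * I)‖ ≤ M := by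
    intro x y h1 h2 h3 h4
    have hs : ((x : ℂ) + (u + y : ℝ) * I) - 1 / 2 - u * I = ((x - 1 / 2 : ℝ) : ℂ) + y * I := by
      push_cast; ring
    simp only [hF]
    rw [norm_mul, hs, norm_gs hβ]
    refine mul_le_mul (hH1 _ (hbox _ (by simpa using h1) (by simpa using h2) (by simpa using h4))).2
      ?_ (by positivity) (by positivity)
    gcongr
    rw [h3, sub_div]
    have h5 : (x - 1 / 2) ^ 2 ≤ β ^ 2 := by
      rw [sq_le_sq, abs_of_pos hβ]
      exact abs_le.2 ⟨by linarith, by linarith⟩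
    have h6 : (x - 1 / 2) ^ 2 / β ^ 2 ≤ 1 := by
      rw [div_le_one (by positivity)]
      exact h5
    have h7 : R ^ 2 / β ^ 2 = 1 / β ^ 2 * R ^ 2 := by ring
    linarith
  have hsh := shift_rect F (a := 1 / 2 - β) (b := 1 / 2 + β) (u := u) (R := R) (M := M)
    (by linarith) hR0 ?_ ?_ ?_
  · have e1 : KK f Y β R u = ∫ y in (-R)..R, F (((1 / 2 + β : ℝ) : ℂ) + (u + y : ℝ) * I) := by
      unfold KK
      refine intervalIntegral.integral_congr fun y hy => ?_
      rw [uIcc_of_le (by linarith)] at hy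
      have hy' : |u + y - u| ≤ R := by
        rw [add_sub_cancel_left]
        exact abs_le.2 hy
      simp only [hF]
      rw [show (((1 / 2 + β : ℝ) : ℂ) + (u + y : ℝ) * I) = (1 / 2 + β + (u + y : ℝ) * I : ℂ) by
        push_cast; ring]
      rw [hH2 (u + y) hy']
      congr 2
      push_cast; ring
    have e2 : LL f β R u = ∫ y in (-R)..R, F (((1 / 2 - β : ℝ) : ℂ) + (u + y : ℝ) * I) := by
      unfold LL
      refine intervalIntegral.integral_congr fun y hy => ?_
      rw [uIcc_of_le (by linarith)] at hy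
      have hy' : |u + y - u| ≤ R := by
        rw [add_sub_cancel_left]
        exact abs_le.2 hy
      simp only [hF]
      rw [show (((1 / 2 - β : ℝ) : ℂ) + (u + y : ℝ) * I) = (1 / 2 - β + (u + y : ℝ) * I : ℂ) by
        push_cast; ring]
      rw [hH3 (u + y) hy']
      congr 2
      push_cast; ring
    rw [e1, e2]
    refine hsh.trans ?_
    have h8 : 2 * (1 / 2 + β - (1 / 2 - β)) * M =
        Real.exp (C * R + (1 + Real.log (4 * β / (β * Real.sqrt Real.pi))) - 1 / β ^ 2 * R ^ 2) := by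
      have hlogpos : 0 < 4 * β / (β * Real.sqrt Real.pi) := by positivity
      have e3 : Real.exp (C * R + (1 + Real.log (4 * β / (β * Real.sqrt Real.pi))) - 1 / β ^ 2 * R ^ 2) =
          Real.exp (R * C) * (4 * β / (β * Real.sqrt Real.pi)) * Real.exp (1 - 1 / β ^ 2 * R ^ 2) := by
        rw [show C * R + (1 + Real.log (4 * β / (β * Real.sqrt Real.pi))) - 1 / β ^ 2 * R ^ 2 =
          R * C + Real.log (4 * β / (β * Real.sqrt Real.pi)) + (1 - 1 / β ^ 2 * R ^ 2) by ring,
          Real.exp_add, Real.exp_add, Real.exp_log hlogpos]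
      rw [e3, hM, Real.rpow_def_of_pos hTpos, ← hR]
      ring
    rw [h8]
    exact hsmall.le
  · intro s h1 h2 h3
    exact ((hH1 s (hbox s h1 h2 h3)).1).mul ((differentiable_gs β).differentiableAt.comp s
      (by fun_prop))
  · intro x h1 h2
    have := hbound x (-R) h1 h2 (by ring) (by rw [abs_neg, abs_of_nonneg hR0])
    rwa [← sub_eq_add_neg] at this
  · intro x h1 h2
    exact hbound x R h1 h2 rfl (by rw [abs_of_nonneg hR0])

end Pool.Agent.H80.MZ
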